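import Mathlib
import Pool.Agent.Helper5.E3P.FarP

/-!
# E-T (MP_12a1af_nt), phase 3: the field CUTP for the codes of the project
-/

variable [Pool.Agent.Helper29.E3.EpFn]

set_option autoImplicit false

open Finset

namespace Pool.Agent.Helper5.E3P

open Pool.Agent.ETS Pool.Agent.Helper83.ET
open Pool.Agent.E3S
open Pool.Agent.Helper5.ETP
open Pool.Agent.Helper29.ETK (Kid CC lg)
open Pool.Agent.Helper29.E3 (kid wb ep Wd gth epo)
open Pool.Agent.E3 (pidx isPT Desc IsDesc Occ ddist)

variable {c : ℕ} {D : Codes}

/-- the cut property of the codes -/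
theorem pfar_mk (hc : 20 ≤ c) (H : CodeFacts c D) : PFar c D where
  code := by
    intro p
    have h1 : D.X p = (pcode (CC c) p).X := funext (fun l => H.X p l)
    have h2 : D.P p = (pcode (CC c) p).P := funext (fun l => funext (fun x => H.P p l x))
    rw [h1, h2]
    exact (pcode (CC c) p).toPCode
  cut := by
    intro p j l hj h1 h2
    have hX : D.X p = (pcode (CC c) p).X := funext (fun l => H.X p l)
    have hP : D.P p = (pcode (CC c) p).P := funext (fun l => funext (fun x => H.P p l x))
    rw [hX, hP]
    have hC := E3S.CC_ge hc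
    have hC256 : 256 ≤ CC c := le_trans (by norm_num) hC
    have hML := pcode_ML2 hC256 (p := p) (j := j) hj l h1 h2
    refine ⟨?_, ?_⟩
    · intro a k G t ha hk
      have h3 := (hML a ha G k hk t).1.le
      refine le_trans (Finset.card_le_card ?_) (h3.trans ?_)
      · intro x hx
        simp only [Finset.mem_filter, FA] at hx ⊢
        obtain ⟨x1, ⟨x', x2, x3⟩, x4⟩ := hx
        exact ⟨⟨(pcode (CC c) p).X_subset l x1, x', (pcode (CC c) p).X_subset a x2, x3⟩, x4⟩
      · apply Nat.mul_le_mul_left
        apply Nat.add_le_add_left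
        apply Nat.div_le_div_right
        refine le_trans (Finset.card_le_card ?_) (VZ_first l a G ha)
        intro x hx
        simp only [Finset.mem_filter, FA] at hx ⊢
        exact hx
    · intro a k G t ha hk
      have h3 := (hML a ha G k hk t).2.le
      refine le_trans (Finset.card_le_card ?_) (h3.trans ?_)
      · intro x hx
        simp only [Finset.mem_filter, FB] at hx ⊢
        obtain ⟨x1, x3, x4⟩ := hx
        exact ⟨⟨(pcode (CC c) p).X_subset l x1, x3⟩, x4⟩
      · apply Nat.mul_le_mul_left
        apply Nat.add_le_add_left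
        apply Nat.div_le_div_right
        refine le_trans (Finset.card_le_card ?_) (VZ_cls l a G)
        intro x hx
        simp only [Finset.mem_filter, FB] at hx ⊢
        exact hx

/-- **CUTP for the codes of the project.** -/
theorem CUTP_mk {K K' : ℕ} (hyp : CaseHyp c D K K') :
    ∀ d r0 r1 r0' r1', IsDesc c K d r0 r1 → HasDesc c K' r0' r1' → d.IsP → d.lo < K' →
      K' < d.hi c → FarOK D c K K' r0 r1 r0' r1' := by
  intro d r0 r1 r0' r1' hd h' hP h1 h2
  have hepo : 40 ≤ epo c K := by have := hyp.epo; omega
  exact farCUTP hyp.c20 (pfar_mk hyp.c20 hyp.D) (farCodes_of hyp.D hyp.c20 hepo) hyp.K1 hyp.g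
    hyp.O hyp.O' hyp.F hd h' hP h1 h2

end Pool.Agent.Helper5.E3P
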